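import Mathlib

/-!
# Restricted Bell polynomials with non-real roots

`B_{720, ≤ 5}` has a non-real root.  The proof: if all roots of a real polynomial `p` are real, then
`p'(x)^2 - p(x) p''(x) ≥ 0` for all real `x` (Laguerre); for `p = B_{720, ≤ 5}` and `x = -1860` this
number is negative.  The values of `B_n`, `B_n'`, `B_n''` at `x` are computed from the recursion
`B_{n+1} = x ∑_{j < 5} C(n, j) B_{n-j}` (remove the block containing the last element).
-/

set_option autoImplicit false

open Finset Polynomial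

namespace Pool.Agent.Results.MP_68af1b_co.Refuted

/-- The restricted Stirling number of the second kind: the number of partitions `P` of the set
`Fin n` into exactly `k` nonempty blocks, each of size at most `m`.  A partition is a set of nonempty
subsets (blocks) of `Fin n` such that every element lies in exactly one block. -/
noncomputable def stirling (m n k : ℕ) : ℕ :=
  Nat.card {P : Finset (Finset (Fin n)) // P.card = k ∧ (∀ b ∈ P, b.Nonempty ∧ b.card ≤ m) ∧
    ∀ i : Fin n, ∃! b, b ∈ P ∧ i ∈ b}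

/-- The restricted Bell polynomial `B_{n, ≤ m}(x)`. -/
noncomputable def bell (m n : ℕ) : ℝ[X] :=
  ∑ k ∈ range (n + 1), C (stirling m n k : ℝ) * X ^ k

section counting

variable {α : Type*} [DecidableEq α]

/-- partitions of the finite set `S` into nonempty blocks -/
def parts (S : Finset α) : Finset (Finset (Finset α)) :=
  S.powerset.powerset.filter fun P => (∀ b ∈ P, b.Nonempty) ∧
    (∀ b ∈ P, ∀ c ∈ P, ∀ i ∈ b, i ∈ c → b = c) ∧ ∀ i ∈ S, ∃ b ∈ P, i ∈ b

theorem mem_parts {S : Finset α} {P : Finset (Finset α)} : P ∈ parts S ↔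
    (∀ b ∈ P, b ⊆ S) ∧ (∀ b ∈ P, b.Nonempty) ∧ (∀ b ∈ P, ∀ c ∈ P, ∀ i ∈ b, i ∈ c → b = c) ∧
      ∀ i ∈ S, ∃ b ∈ P, i ∈ b := by
  unfold parts
  rw [mem_filter, mem_powerset]
  constructor
  · rintro ⟨h1, h2⟩
    exact ⟨fun b hb => mem_powerset.1 (h1 hb), h2⟩
  · rintro ⟨h1, h2⟩
    exact ⟨fun b hb => mem_powerset.2 (h1 b hb), h2⟩

/-- weight of a partition -/
noncomputable def wt {R : Type*} [CommRing R] (m : ℕ) (x : R) (P : Finset (Finset α)) : R :=
  if ∀ b ∈ P, b.card ≤ m then x ^ P.card else 0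

theorem sum_insert {R : Type*} [CommRing R] (m : ℕ) (x : R) (S : Finset α) (a : α) (ha : a ∉ S) :
    ∑ P ∈ parts (insert a S), wt m x P =
      ∑ A ∈ S.powerset, (if A.card < m then x else 0) * ∑ Q ∈ parts (S \ A), wt m x Q := by
  classical
  simp_rw [mul_sum]
  rw [sum_sigma']
  symm
  refine sum_bij (fun (p : (_ : Finset α) × Finset (Finset α)) _ => insert (insert a p.1) p.2)
    ?_ ?_ ?_ ?_
  · rintro ⟨A, Q⟩ h
    simp only [mem_sigma, mem_powerset] at h
    obtain ⟨hA, hQ⟩ := h
    rw [mem_parts] at hQ ⊢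
    obtain ⟨h1, h2, h3, h4⟩ := hQ
    have hdis : ∀ b ∈ Q, ∀ i ∈ b, i ∉ insert a A := by
      intro b hb i hi hi2
      have := h1 b hb hi
      rw [mem_sdiff] at this
      rcases mem_insert.1 hi2 with rfl | hi3
      · exact ha this.1
      · exact this.2 hi3
    refine ⟨?_, ?_, ?_, ?_⟩
    · intro b hb
      rcases mem_insert.1 hb with rfl | hb
      · exact insert_subset_insert _ hA
      · exact ((h1 b hb).trans sdiff_subset).trans (subset_insert _ _)
    · intro b hb
      rcases mem_insert.1 hb with rfl | hb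
      · exact insert_nonempty _ _
      · exact h2 b hb
    · intro b hb c hc i hi hi2
      rcases mem_insert.1 hb with rfl | hb
      · rcases mem_insert.1 hc with rfl | hc
        · rfl
        · exact absurd hi (hdis c hc i hi2)
      · rcases mem_insert.1 hc with rfl | hc
        · exact absurd hi2 (hdis b hb i hi)
        · exact h3 b hb c hc i hi hi2
    · intro i hi
      by_cases hiA : i ∈ insert a A
      · exact ⟨_, mem_insert_self _ _, hiA⟩
      · have hiS : i ∈ S \ A := by
          rw [mem_sdiff]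
          rw [mem_insert, not_or] at hiA
          refine ⟨?_, hiA.2⟩
          rcases mem_insert.1 hi with rfl | h
          · exact absurd rfl hiA.1
          · exact h
        obtain ⟨b, hb, hib⟩ := h4 i hiS
        exact ⟨b, mem_insert_of_mem hb, hib⟩
  · rintro ⟨A, Q⟩ h ⟨A', Q'⟩ h' heq
    simp only [mem_sigma, mem_powerset] at h h'
    simp only at heq
    obtain ⟨hA, hQ⟩ := h
    obtain ⟨hA', hQ'⟩ := h'
    rw [mem_parts] at hQ hQ'
    have haQ : ∀ b ∈ Q, a ∉ b := fun b hb hab => ha (mem_sdiff.1 (hQ.1 b hb hab)).1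
    have haQ' : ∀ b ∈ Q', a ∉ b := fun b hb hab => ha (mem_sdiff.1 (hQ'.1 b hb hab)).1
    have hAA : insert a A = insert a A' := by
      have : insert a A ∈ insert (insert a A') Q' := by
        rw [← heq]; exact mem_insert_self _ _
      rcases mem_insert.1 this with h | h
      · exact h
      · exact absurd (mem_insert_self a A) (haQ' _ h)
    have haA : a ∉ A := fun h => ha (hA h)
    have haA' : a ∉ A' := fun h => ha (hA' h)
    have hA2 : A = A' := by
      have := congrArg (fun s => s.erase a) hAA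
      simpa [erase_insert haA, erase_insert haA'] using this
    subst hA2
    have hQ2 : Q = Q' := by
      have n1 : insert a A ∉ Q := fun h => haQ _ h (mem_insert_self _ _)
      have n2 : insert a A ∉ Q' := fun h => haQ' _ h (mem_insert_self _ _)
      have := congrArg (fun s => s.erase (insert a A)) heq
      simpa [erase_insert n1, erase_insert n2] using this
    subst hQ2
    rfl
  · intro P hP
    rw [mem_parts] at hP
    obtain ⟨h1, h2, h3, h4⟩ := hP
    obtain ⟨b, hb, hab⟩ := h4 a (mem_insert_self _ _)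
    refine ⟨⟨b.erase a, P.erase b⟩, ?_, ?_⟩
    · simp only [mem_sigma, mem_powerset]
      have hbs : b.erase a ⊆ S := by
        intro i hi
        rw [mem_erase] at hi
        rcases mem_insert.1 (h1 b hb hi.2) with h | h
        · exact absurd h hi.1
        · exact h
      refine ⟨hbs, ?_⟩
      rw [mem_parts]
      refine ⟨?_, ?_, ?_, ?_⟩
      · intro c hc i hi
        rw [mem_erase] at hc
        rw [mem_sdiff]
        have hib : i ∉ b := fun hib => hc.1 (h3 c hc.2 b hb i hi hib)
        have hia : i ≠ a := by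
          rintro rfl
          exact hib hab
        refine ⟨?_, fun h => hib (mem_of_mem_erase h)⟩
        rcases mem_insert.1 (h1 c hc.2 hi) with h | h
        · exact absurd h hia
        · exact h
      · intro c hc
        exact h2 c (mem_of_mem_erase hc)
      · intro c hc d hd i hi hi2
        exact h3 c (mem_of_mem_erase hc) d (mem_of_mem_erase hd) i hi hi2
      · intro i hi
        rw [mem_sdiff] at hi
        obtain ⟨c, hc, hic⟩ := h4 i (mem_insert_of_mem hi.1)
        refine ⟨c, ?_, hic⟩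
        rw [mem_erase]
        refine ⟨?_, hc⟩
        rintro rfl
        apply hi.2
        rw [mem_erase]
        refine ⟨?_, hic⟩
        rintro rfl
        exact ha hi.1
    · simp only
      rw [insert_erase hab, insert_erase hb]
  · rintro ⟨A, Q⟩ h
    simp only [mem_sigma, mem_powerset] at h
    obtain ⟨hA, hQ⟩ := h
    rw [mem_parts] at hQ
    have haQ : ∀ b ∈ Q, a ∉ b := fun b hb hab => ha (mem_sdiff.1 (hQ.1 b hb hab)).1
    have n1 : insert a A ∉ Q := fun h => haQ _ h (mem_insert_self _ _)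
    have haA : a ∉ A := fun h => ha (hA h)
    simp only [wt]
    rw [card_insert_of_notMem n1]
    by_cases hc : A.card < m
    · rw [if_pos hc]
      have hiff : (∀ b ∈ insert (insert a A) Q, b.card ≤ m) ↔ ∀ b ∈ Q, b.card ≤ m := by
        rw [forall_mem_insert]
        constructor
        · exact fun h => h.2
        · intro h
          refine ⟨?_, h⟩
          rw [card_insert_of_notMem haA]
          omega
      by_cases hq : ∀ b ∈ Q, b.card ≤ m
      · rw [if_pos hq, if_pos (hiff.2 hq), pow_succ']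
      · rw [if_neg hq, if_neg (fun h => hq (hiff.1 h)), mul_zero]
    · rw [if_neg hc, zero_mul, if_neg]
      intro h
      have := h _ (mem_insert_self _ _)
      rw [card_insert_of_notMem haA] at this
      omega

/-- the recursion for the generating polynomials by number of blocks -/
noncomputable def rb {R : Type*} [CommRing R] (m : ℕ) (x : R) : ℕ → R
  | 0 => 1
  | n + 1 => ∑ j : Fin (n + 1), (if (j : ℕ) < m then x else 0) * ((n.choose j : ℕ) : R) * rb m x (n - j)

theorem rb_succ {R : Type*} [CommRing R] (m : ℕ) (x : R) (n : ℕ) :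
    rb m x (n + 1) = ∑ j ∈ range (n + 1), (if j < m then x else 0) * ((n.choose j : ℕ) : R) *
      rb m x (n - j) := by
  rw [rb, Fin.sum_univ_eq_sum_range (fun j => (if j < m then x else 0) * ((n.choose j : ℕ) : R) *
      rb m x (n - j)) (n + 1)]

theorem sum_parts {R : Type*} [CommRing R] (m : ℕ) (x : R) (n : ℕ) (S : Finset α)
    (hS : S.card = n) : ∑ P ∈ parts S, wt m x P = rb m x n := by
  induction n using Nat.strong_induction_on generalizing S with
  | _ n ih =>
    rcases n with _ | n
    · rw [card_eq_zero] at hS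
      subst hS
      have : parts (∅ : Finset α) = {∅} := by
        ext P
        rw [mem_parts, mem_singleton]
        constructor
        · rintro ⟨h1, h2, -, -⟩
          rw [eq_empty_iff_forall_notMem]
          intro b hb
          obtain ⟨i, hi⟩ := h2 b hb
          exact absurd (h1 b hb hi) (notMem_empty i)
        · rintro rfl
          simp
      rw [this, sum_singleton]
      simp [wt, rb]
    · obtain ⟨a, ha⟩ := card_pos.1 (by omega : 0 < S.card)
      have hins : insert a (S.erase a) = S := insert_erase ha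
      rw [← hins, sum_insert m x (S.erase a) a (notMem_erase _ _), rb_succ]
      have hc : (S.erase a).card = n := by rw [card_erase_of_mem ha]; omega
      have h1 : ∀ A ∈ (S.erase a).powerset,
          (if A.card < m then x else 0) * ∑ Q ∈ parts (S.erase a \ A), wt m x Q =
            (fun j => (if j < m then x else 0) * rb m x (n - j)) A.card := by
        intro A hA
        rw [mem_powerset] at hA
        have hcard : (S.erase a \ A).card = n - A.card := by
          rw [card_sdiff_of_subset hA, hc]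
        simp only
        rw [ih (n - A.card) (by omega) _ hcard]
      rw [sum_congr rfl h1, sum_powerset_apply_card (fun j => (if j < m then x else 0) *
        rb m x (n - j)), hc]
      refine sum_congr rfl fun j _ => ?_
      rw [nsmul_eq_mul]
      ring

end counting

theorem bell_eq (m n : ℕ) : bell m n = rb m (X : ℝ[X]) n := by
  classical
  have h := sum_parts m (X : ℝ[X]) n (univ : Finset (Fin n)) (by simp)
  rw [← h]
  have hcard : ∀ P ∈ parts (univ : Finset (Fin n)), P.card ∈ range (n + 1) := by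
    intro P hP
    rw [mem_parts] at hP
    obtain ⟨-, h2, h3, -⟩ := hP
    rw [mem_range, Nat.lt_succ_iff]
    calc P.card = ∑ b ∈ P, 1 := by simp
      _ ≤ ∑ b ∈ P, b.card := sum_le_sum fun b hb => card_pos.2 (h2 b hb)
      _ = (P.biUnion id).card := by
          rw [card_biUnion]
          · rfl
          · intro b hb c hc hbc
            rw [Function.onFun, id, id, disjoint_left]
            intro i hi hi2
            exact hbc (h3 b hb c hc i hi hi2)
      _ ≤ (univ : Finset (Fin n)).card := card_le_univ _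
      _ = n := by simp
  rw [← sum_fiberwise_of_maps_to hcard]
  unfold bell
  refine sum_congr rfl fun k _ => ?_
  have h1 : ∑ P ∈ (parts (univ : Finset (Fin n))).filter (fun P => P.card = k), wt m (X : ℝ[X]) P =
      ∑ P ∈ (parts (univ : Finset (Fin n))).filter (fun P => P.card = k),
        if ∀ b ∈ P, b.card ≤ m then (X : ℝ[X]) ^ k else 0 := by
    refine sum_congr rfl fun P hP => ?_
    rw [mem_filter] at hP
    rw [wt, hP.2]
    split_ifs <;> rfl
  rw [h1, ← sum_filter, sum_const, nsmul_eq_mul]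
  congr 1
  rw [stirling, Nat.subtype_card (((parts (univ : Finset (Fin n))).filter
    (fun P => P.card = k)).filter (fun P => ∀ b ∈ P, b.card ≤ m))]
  · simp
  · intro P
    rw [mem_filter, mem_filter, mem_parts]
    constructor
    · rintro ⟨⟨⟨-, h2, h3, h4⟩, h5⟩, h6⟩
      refine ⟨h5, fun b hb => ⟨h2 b hb, h6 b hb⟩, fun i => ?_⟩
      obtain ⟨b, hb, hib⟩ := h4 i (mem_univ i)
      exact ⟨b, ⟨hb, hib⟩, fun c hc => h3 c hc.1 b hb i hc.2 hib⟩
    · rintro ⟨h5, h2, h4⟩
      refine ⟨⟨⟨fun b _ => subset_univ b, fun b hb => (h2 b hb).1, ?_, ?_⟩, h5⟩,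
        fun b hb => (h2 b hb).2⟩
      · intro b hb c hc i hi hi2
        exact (h4 i).unique ⟨hb, hi⟩ ⟨hc, hi2⟩
      · intro i _
        obtain ⟨b, hb, -⟩ := h4 i
        exact ⟨b, hb.1, hb.2⟩

/-- the recursion for `m = 5` -/
theorem rb_five (n : ℕ) : rb 5 (X : ℝ[X]) (n + 1) = X * (rb 5 X n +
    (n : ℝ[X]) * rb 5 X (n - 1) + ((n.choose 2 : ℕ) : ℝ[X]) * rb 5 X (n - 2) +
    ((n.choose 3 : ℕ) : ℝ[X]) * rb 5 X (n - 3) + ((n.choose 4 : ℕ) : ℝ[X]) * rb 5 X (n - 4)) := by
  have h1 : ∑ j ∈ range (n + 1), (if j < 5 then (X : ℝ[X]) else 0) * ((n.choose j : ℕ) : ℝ[X]) *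
      rb 5 X (n - j) = ∑ j ∈ range 5, (if j < 5 then (X : ℝ[X]) else 0) *
        ((n.choose j : ℕ) : ℝ[X]) * rb 5 X (n - j) := by
    rcases le_total (n + 1) 5 with h | h
    · refine sum_subset (range_subset_range.2 h) fun j _ hj => ?_
      rw [mem_range, not_lt] at hj
      rw [Nat.choose_eq_zero_of_lt (by omega)]
      simp
    · symm
      refine sum_subset (range_subset_range.2 h) fun j _ hj => ?_
      rw [mem_range, not_lt] at hj
      rw [if_neg (by omega), zero_mul, zero_mul]
  rw [rb_succ, h1, sum_range_succ, sum_range_succ, sum_range_succ, sum_range_succ, sum_range_succ,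
    sum_range_zero]
  simp only [show (0:ℕ) < 5 by norm_num, show (1:ℕ) < 5 by norm_num, show (2:ℕ) < 5 by norm_num,
    show (3:ℕ) < 5 by norm_num, show (4:ℕ) < 5 by norm_num, if_true, Nat.choose_zero_right,
    Nat.choose_one_right, Nat.sub_zero, Nat.cast_one]
  ring

/-- the three numbers are the values of `p`, `p'`, `p''` at `-1860` -/
def Jet (p : ℝ[X]) (t : ℤ × ℤ × ℤ) : Prop :=
  p.eval (-1860) = t.1 ∧ (derivative p).eval (-1860) = t.2.1 ∧
    (derivative (derivative p)).eval (-1860) = t.2.2

/-- states of the computation -/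
abbrev St := (ℤ × ℤ × ℤ) × (ℤ × ℤ × ℤ) × (ℤ × ℤ × ℤ) × (ℤ × ℤ × ℤ) × (ℤ × ℤ × ℤ)

/-- combination -/
def comb (n : ℕ) (a0 a1 a2 a3 a4 : ℤ) : ℤ :=
  a0 + (n : ℤ) * a1 + ((n * (n - 1) / 2 : ℕ) : ℤ) * a2 +
    ((n * (n - 1) * (n - 2) / 6 : ℕ) : ℤ) * a3 +
    ((n * (n - 1) * (n - 2) * (n - 3) / 24 : ℕ) : ℤ) * a4

/-- new triple -/
def newT (b d e : ℤ) : ℤ × ℤ × ℤ := (-1860 * b, b + -1860 * d, 2 * d + -1860 * e)

/-- one step -/
def step (n : ℕ) (s : St) : St :=
  (newT (comb n s.1.1 s.2.1.1 s.2.2.1.1 s.2.2.2.1.1 s.2.2.2.2.1)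
      (comb n s.1.2.1 s.2.1.2.1 s.2.2.1.2.1 s.2.2.2.1.2.1 s.2.2.2.2.2.1)
      (comb n s.1.2.2 s.2.1.2.2 s.2.2.1.2.2 s.2.2.2.1.2.2 s.2.2.2.2.2.2),
    s.1, s.2.1, s.2.2.1, s.2.2.2.1)

/-- the computation -/
def run : ℕ → St
  | 0 => ((1, 0, 0), (1, 0, 0), (1, 0, 0), (1, 0, 0), (1, 0, 0))
  | n + 1 => step n (run n)

theorem choose_three (n : ℕ) : n.choose 3 = n * (n - 1) * (n - 2) / 6 := by
  rw [Nat.choose_eq_descFactorial_div_factorial]
  simp only [Nat.descFactorial, Nat.factorial]
  congr 1
  rw [Nat.sub_zero]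
  ring

theorem choose_four (n : ℕ) : n.choose 4 = n * (n - 1) * (n - 2) * (n - 3) / 24 := by
  rw [Nat.choose_eq_descFactorial_div_factorial]
  simp only [Nat.descFactorial, Nat.factorial]
  congr 1
  rw [Nat.sub_zero]
  ring

theorem jet_step (n : ℕ) (p0 p1 p2 p3 p4 : ℝ[X]) (s : St) (h0 : Jet p0 s.1) (h1 : Jet p1 s.2.1)
    (h2 : Jet p2 s.2.2.1) (h3 : Jet p3 s.2.2.2.1) (h4 : Jet p4 s.2.2.2.2) :
    Jet (X * (p0 + (n : ℝ[X]) * p1 + ((n.choose 2 : ℕ) : ℝ[X]) * p2 +
      ((n.choose 3 : ℕ) : ℝ[X]) * p3 + ((n.choose 4 : ℕ) : ℝ[X]) * p4)) (step n s).1 := by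
  obtain ⟨a0, b0, c0⟩ := h0
  obtain ⟨a1, b1, c1⟩ := h1
  obtain ⟨a2, b2, c2⟩ := h2
  obtain ⟨a3, b3, c3⟩ := h3
  obtain ⟨a4, b4, c4⟩ := h4
  rw [Nat.choose_two_right, choose_three, choose_four]
  simp only [step, newT, comb, Jet]
  generalize n * (n - 1) * (n - 2) * (n - 3) / 24 = e4
  generalize n * (n - 1) * (n - 2) / 6 = e3
  generalize n * (n - 1) / 2 = e2
  refine ⟨?_, ?_, ?_⟩
  · simp only [eval_mul, eval_add, eval_X, eval_natCast, a0, a1, a2, a3, a4]
    push_cast
    ring
  · simp only [derivative_mul, derivative_add, derivative_X,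
      derivative_natCast, eval_mul, eval_add, eval_X, eval_natCast, eval_one, eval_zero,
      a0, a1, a2, a3, a4, b0, b1, b2, b3, b4]
    push_cast
    ring
  · simp only [derivative_mul, derivative_add, derivative_X,
      derivative_natCast, derivative_one, derivative_zero, eval_mul, eval_add, eval_X,
      eval_natCast, eval_one, eval_zero,
      a0, a1, a2, a3, a4, b0, b1, b2, b3, b4, c0, c1, c2, c3, c4]
    push_cast
    ring

theorem jet_run (n : ℕ) : Jet (rb 5 X n) (run n).1 ∧ Jet (rb 5 X (n - 1)) (run n).2.1 ∧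
    Jet (rb 5 X (n - 2)) (run n).2.2.1 ∧ Jet (rb 5 X (n - 3)) (run n).2.2.2.1 ∧
    Jet (rb 5 X (n - 4)) (run n).2.2.2.2 := by
  induction n with
  | zero =>
    have h : Jet (rb 5 (X : ℝ[X]) 0) (1, 0, 0) := by
      rw [rb]
      refine ⟨?_, ?_, ?_⟩ <;> simp
    exact ⟨h, h, h, h, h⟩
  | succ n ih =>
    obtain ⟨h0, h1, h2, h3, h4⟩ := ih
    refine ⟨?_, h0, ?_, ?_, ?_⟩
    · rw [rb_five]
      exact jet_step n _ _ _ _ _ _ h0 h1 h2 h3 h4
    · exact h1
    · exact h2
    · exact h3

/-- Laguerre's inequality -/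
theorem laguerre (n : ℕ) : ∀ p : ℝ[X], p.natDegree = n →
    (∀ z : ℂ, aeval z p = 0 → z.im = 0) → ∀ x : ℝ,
      p.eval x * (derivative (derivative p)).eval x ≤ (derivative p).eval x ^ 2 := by
  induction n with
  | zero =>
    intro p hp _ x
    rw [eq_C_of_natDegree_eq_zero hp]
    simp
  | succ n ih =>
    intro p hp hz x
    have hp0 : p ≠ 0 := by
      rintro rfl
      simp at hp
    obtain ⟨z, hz0⟩ := IsAlgClosed.exists_aeval_eq_zero ℂ p (by
      rw [degree_eq_natDegree hp0, hp]
      exact_mod_cast Nat.succ_ne_zero n)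
    have him := hz z hz0
    have hzr : z = (z.re : ℂ) := by
      apply Complex.ext <;> simp [him]
    have hr : p.eval z.re = 0 := by
      rw [hzr] at hz0
      have h1 : aeval ((z.re : ℝ) : ℂ) p = ((p.eval z.re : ℝ) : ℂ) := by
        have := aeval_algebraMap_apply ℂ z.re p
        simpa using this
      rw [h1] at hz0
      exact_mod_cast hz0
    obtain ⟨q, hq⟩ := dvd_iff_isRoot.2 hr
    have hq0 : q ≠ 0 := by
      rintro rfl
      exact hp0 (by rw [hq, mul_zero])
    have hdeg : q.natDegree = n := by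
      have := natDegree_mul (X_sub_C_ne_zero z.re) hq0
      rw [← hq, hp, natDegree_X_sub_C] at this
      omega
    have hzq : ∀ w : ℂ, aeval w q = 0 → w.im = 0 := by
      intro w hw
      apply hz w
      rw [hq, map_mul, hw, mul_zero]
    have h := ih q hdeg hzq x
    rw [hq]
    simp only [derivative_mul, derivative_add, derivative_sub, derivative_X, derivative_C,
      derivative_one, derivative_zero, eval_mul, eval_add, eval_sub, eval_X, eval_C, eval_one,
      eval_zero, sub_zero, one_mul, zero_mul, zero_add]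
    nlinarith [mul_nonneg (sq_nonneg (x - z.re)) (sub_nonneg.2 h), sq_nonneg (q.eval x)]

set_option maxRecDepth 100000 in
theorem numbers : (run 720).1.2.1 ^ 2 < (run 720).1.1 * (run 720).1.2.2 := by
  decide +kernel

/-- The restricted Bell polynomial `B_{720, ≤ 5}` has a non-real root, so it is not true that for
every `m ≥ 1` with `m ∉ {3, 4}` and every `n ≥ 1` all roots of `B_{n, ≤ m}` are real and
non-positive. -/
theorem result : (∃ z : ℂ, aeval z (bell 5 720) = 0 ∧ z.im ≠ 0) ∧
    ¬ ∀ m n : ℕ, 1 ≤ m → m ≠ 3 → m ≠ 4 → 1 ≤ n →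
      ∀ z : ℂ, aeval z (bell m n) = 0 → z.im = 0 ∧ z.re ≤ 0 := by
  have key : ∃ z : ℂ, aeval z (bell 5 720) = 0 ∧ z.im ≠ 0 := by
    by_contra hcon
    push Not at hcon
    have h1 := laguerre _ (bell 5 720) rfl hcon (-1860)
    rw [bell_eq] at h1
    obtain ⟨⟨a, b, c⟩, -⟩ := jet_run 720
    rw [a, b, c] at h1
    have h2 := numbers
    have h3 : (((run 720).1.2.1 ^ 2 : ℤ) : ℝ) < (((run 720).1.1 * (run 720).1.2.2 : ℤ) : ℝ) := by
      exact_mod_cast h2
    push_cast at h3
    linarith
  refine ⟨key, fun h => ?_⟩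
  obtain ⟨z, h1, h2⟩ := key
  exact h2 (h 5 720 (by norm_num) (by norm_num) (by norm_num) (by norm_num) z h1).1

end Pool.Agent.Results.MP_68af1b_co.Refuted
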